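import Pool.Agent.Helper68.DS.Goals

/-!
# Packet DESC (MP_52cd29_ag): a special case of the rule of signs, by Rolle
-/

namespace Pool.Agent.Helper89.DS

open Pool.Agent.Helper68.DS

/-- The real case. -/
theorem real_case (n : ℕ) (a b c d : ℝ) (z0 z1 z2 z3 : ℝ) (h0 : 0 < z0) (h01 : z0 < z1)
    (h12 : z1 < z2) (h23 : z2 < z3)
    (e0 : a + b * z0 + c * z0 ^ (n + 2) + d * z0 ^ (n + 3) = 0)
    (e1 : a + b * z1 + c * z1 ^ (n + 2) + d * z1 ^ (n + 3) = 0)
    (e2 : a + b * z2 + c * z2 ^ (n + 2) + d * z2 ^ (n + 3) = 0)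
    (e3 : a + b * z3 + c * z3 ^ (n + 2) + d * z3 ^ (n + 3) = 0) :
    a = 0 ∧ b = 0 ∧ c = 0 ∧ d = 0 := by
  have hf : ∀ x : ℝ, HasDerivAt (fun y : ℝ => a + b * y + c * y ^ (n + 2) + d * y ^ (n + 3))
      (b + c * ((n + 2) * x ^ (n + 1)) + d * ((n + 3) * x ^ (n + 2))) x := by
    intro x
    have h1 : HasDerivAt (fun y : ℝ => a + b * y) b x := by
      simpa using ((hasDerivAt_id x).const_mul b).const_add a
    have h2 : HasDerivAt (fun y : ℝ => c * y ^ (n + 2)) (c * ((n + 2) * x ^ (n + 1))) x := by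
      have := (hasDerivAt_pow (n + 2) x).const_mul c
      push_cast at this
      exact this
    have h3 : HasDerivAt (fun y : ℝ => d * y ^ (n + 3)) (d * ((n + 3) * x ^ (n + 2))) x := by
      have := (hasDerivAt_pow (n + 3) x).const_mul d
      push_cast at this
      exact this
    exact (h1.add h2).add h3
  have hf' : ∀ x : ℝ, HasDerivAt
      (fun y : ℝ => b + c * ((n + 2) * y ^ (n + 1)) + d * ((n + 3) * y ^ (n + 2)))
      (c * ((n + 2) * ((n + 1) * x ^ n)) + d * ((n + 3) * ((n + 2) * x ^ (n + 1)))) x := by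
    intro x
    have h2 : HasDerivAt (fun y : ℝ => c * (((n : ℝ) + 2) * y ^ (n + 1)))
        (c * ((n + 2) * ((n + 1) * x ^ n))) x := by
      have := ((hasDerivAt_pow (n + 1) x).const_mul ((n : ℝ) + 2)).const_mul c
      push_cast at this
      simpa using this
    have h3 : HasDerivAt (fun y : ℝ => d * (((n : ℝ) + 3) * y ^ (n + 2)))
        (d * ((n + 3) * ((n + 2) * x ^ (n + 1)))) x := by
      have := ((hasDerivAt_pow (n + 2) x).const_mul ((n : ℝ) + 3)).const_mul d
      push_cast at this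
      exact this
    exact (h2.const_add b).add h3
  have rolle : ∀ (f f' : ℝ → ℝ), (∀ x, HasDerivAt f (f' x) x) → ∀ x y, x < y → f x = f y →
      ∃ z, x < z ∧ z < y ∧ f' z = 0 := by
    intro f f' h x y hxy hfxy
    obtain ⟨z, hz, hz'⟩ := exists_hasDerivAt_eq_zero hxy
      (fun t _ => (h t).continuousAt.continuousWithinAt) hfxy (fun t _ => h t)
    exact ⟨z, hz.1, hz.2, hz'⟩
  obtain ⟨c1, hc1, hc1', k1⟩ := rolle _ _ hf z0 z1 h01 (e0.trans e1.symm)
  obtain ⟨c2, hc2, hc2', k2⟩ := rolle _ _ hf z1 z2 h12 (e1.trans e2.symm)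
  obtain ⟨c3, hc3, hc3', k3⟩ := rolle _ _ hf z2 z3 h23 (e2.trans e3.symm)
  obtain ⟨d1, hd1, hd1', m1⟩ := rolle _ _ hf' c1 c2 (hc1'.trans hc2) (k1.trans k2.symm)
  obtain ⟨d2, hd2, hd2', m2⟩ := rolle _ _ hf' c2 c3 (hc2'.trans hc3) (k2.trans k3.symm)
  have hd1p : 0 < d1 := by linarith
  have hd2p : 0 < d2 := by linarith
  have hd12 : d1 < d2 := by linarith
  have fac : ∀ t : ℝ, 0 < t →
      c * ((n + 2) * ((n + 1) * t ^ n)) + d * ((n + 3) * ((n + 2) * t ^ (n + 1))) = 0 →
      c * (n + 1) + d * (n + 3) * t = 0 := by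
    intro t ht h
    have hn : (0 : ℝ) < (n : ℝ) + 2 := by positivity
    have : ((n + 2) * t ^ n) * (c * (n + 1) + d * (n + 3) * t) = 0 := by
      rw [← h]
      ring
    rcases mul_eq_zero.1 this with h' | h'
    · exact absurd h' (by positivity)
    · exact h'
  have g1 := fac d1 hd1p m1
  have g2 := fac d2 hd2p m2
  have hd : d = 0 := by
    have : d * ((n + 3) * (d2 - d1)) = 0 := by linear_combination g2 - g1
    rcases mul_eq_zero.1 this with h' | h'
    · exact h'
    · have hn : (0 : ℝ) < (n : ℝ) + 3 := by positivity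
      have : 0 < ((n : ℝ) + 3) * (d2 - d1) := mul_pos hn (by linarith)
      exact absurd h' this.ne'
  have hc : c = 0 := by
    rw [hd] at g1
    have : c * ((n : ℝ) + 1) = 0 := by linear_combination g1
    rcases mul_eq_zero.1 this with h' | h'
    · exact h'
    · exact absurd h' (by positivity)
  rw [hc, hd] at e0 e1
  have hb : b = 0 := by
    have : b * (z1 - z0) = 0 := by linear_combination e1 - e0
    rcases mul_eq_zero.1 this with h' | h'
    · exact h'
    · exact absurd h' (sub_pos.2 h01).ne'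
  refine ⟨?_, hb, hc, hd⟩
  rw [hb] at e0
  linear_combination e0

/-- Packet DESC. -/
theorem DESC : DESC_stmt := by
  intro e he c y hy hpos hz
  obtain ⟨n, rfl⟩ : ∃ n, e = n + 2 := ⟨e - 2, by omega⟩
  set σ := Tuple.sort y with hσ
  have hmono : Monotone (y ∘ σ) := Tuple.monotone_sort y
  have hstrict : StrictMono (y ∘ σ) := hmono.strictMono_of_injective (hy.comp σ.injective)
  have h01 : y (σ 0) < y (σ 1) := hstrict (by decide)
  have h12 : y (σ 1) < y (σ 2) := hstrict (by decide)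
  have h23 : y (σ 2) < y (σ 3) := hstrict (by decide)
  have hre : ∀ r, (c 0).re + (c 1).re * y r + (c 2).re * y r ^ (n + 2) +
      (c 3).re * y r ^ (n + 3) = 0 := by
    intro r
    have h := congrArg Complex.re (hz r)
    have e1 : ((y r : ℂ)) ^ (n + 2) = ((y r ^ (n + 2) : ℝ) : ℂ) := by push_cast; rfl
    have e2 : ((y r : ℂ)) ^ (n + 2 + 1) = ((y r ^ (n + 3) : ℝ) : ℂ) := by push_cast; rfl
    rw [e1, e2] at h
    simpa only [Complex.add_re, Complex.re_mul_ofReal, Complex.zero_re] using h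
  have him : ∀ r, (c 0).im + (c 1).im * y r + (c 2).im * y r ^ (n + 2) +
      (c 3).im * y r ^ (n + 3) = 0 := by
    intro r
    have h := congrArg Complex.im (hz r)
    have e1 : ((y r : ℂ)) ^ (n + 2) = ((y r ^ (n + 2) : ℝ) : ℂ) := by push_cast; rfl
    have e2 : ((y r : ℂ)) ^ (n + 2 + 1) = ((y r ^ (n + 3) : ℝ) : ℂ) := by push_cast; rfl
    rw [e1, e2] at h
    simpa only [Complex.add_im, Complex.im_mul_ofReal, Complex.zero_im] using h
  obtain ⟨r0, r1, r2, r3⟩ := real_case n _ _ _ _ _ _ _ _ (hpos (σ 0)) h01 h12 h23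
    (hre _) (hre _) (hre _) (hre _)
  obtain ⟨i0, i1, i2, i3⟩ := real_case n _ _ _ _ _ _ _ _ (hpos (σ 0)) h01 h12 h23
    (him _) (him _) (him _) (him _)
  funext r
  fin_cases r
  · exact Complex.ext r0 i0
  · exact Complex.ext r1 i1
  · exact Complex.ext r2 i2
  · exact Complex.ext r3 i3

end Pool.Agent.Helper89.DS
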